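import Pool.Agent.H44.KR.Targets

/-!
# Kernels of canonical maps for structures with local completions: small rows
-/

set_option autoImplicit false
set_option linter.unusedVariables false

namespace Pool.Agent.H44.KR

open Pool.Agent.H68.BP Pool.Agent.H58.SF Pool.Agent.H53.NR Pool.Agent.H53.GM
open Pool.Agent.H57.LCI (LocalCompletions Pre Realizes)
open Pool.Agent.H57.AR (tp ty)
open Pool.Agent.H57.EQ (Cx)
open Function
open Classical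

theorem pf_AX1 : T_AX1 := by
  intro V ρ 𝔹 L Q pl W W' C C' f hf hG Z
  obtain ⟨f', hf'⟩ := hG Z
  refine ⟨fun x => f' (f x), fun g κ hg => ?_⟩
  obtain ⟨h1, h2⟩ := hf g κ hg
  obtain ⟨h3, h4⟩ := hf' _ κ h1
  have hmem : ∀ x ∈ {x | x ∈ g ∧ inSh Z (pl (C.pt x))},
      f x ∈ {x | x ∈ g.image f ∧ inSh Z (pl (C'.pt x))} := by
    intro x hx
    refine ⟨Finset.mem_image_of_mem f hx.1, ?_⟩
    rw [h2 x hx.1]
    exact hx.2
  refine ⟨fun x hx y hy hxy => ?_, fun l z hz => ?_⟩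
  · rw [← h2 x hx.1, ← h2 y hy.1]
    exact h3 (f x) (hmem x hx) (f y) (hmem y hy) hxy
  · rw [h4 l (fun i => f (z i)) fun i => hmem _ (hz i)]
    have h5 : (fun i => C'.pt (f (z i))) = fun i => C.pt (z i) := by
      funext i
      exact h2 _ (hz i).1
    rw [h5]

theorem pf_PAT : T_PAT := by
  unfold T_PAT lr
  decide

theorem cx_comp {V : Type} {σ : Sig} {𝔸 : Str σ V} {I W : Type} {G : I → W → V} {ψ ψ' : W → V}
    (h : Cx 𝔸 G ψ) (h' : Cx 𝔸 (fun _ : Unit => ψ) ψ') : Cx 𝔸 G ψ' :=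
  fun l z hz => h' l z fun _ => h l z hz

theorem pf_NRJ : T_NRJ := by
  rintro V σ ρ 𝔸 𝔹 s t ⟨k, hk⟩ hn
  refine ⟨k, fun W _ G M => ?_⟩
  obtain ⟨ψ₀, h1, h2, h3⟩ := hk W G M
  obtain ⟨ψ, h4, h5, h6⟩ := hn W ψ₀
  refine ⟨ψ, cx_comp h1 h4, fun w hw => h5 w (h2 w hw), fun w w' hw hw' => ?_⟩
  rw [h6 w w' (h2 w hw) (h2 w' hw')]
  exact h3 w w' hw hw'

theorem ent0 (r : Fin 3) (c c' : Fin 6) : Ent r 0 c c' ↔ c = c' := by
  constructor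
  · rintro (h | ⟨-, h⟩)
    · exact h
    · exfalso
      apply h
      unfold sh
      rcases lr r c with ⟨v, hv⟩
      interval_cases v <;> rfl
  · exact Or.inl

theorem plc0 (L : ℕ) (r : Fin 3) (c : Fin 6) : plc L r 0 c = Sum.inl c := by
  have h : sh 0 (lr r c) = 0 := by
    unfold sh
    rcases lr r c with ⟨v, hv⟩
    interval_cases v <;> rfl
  unfold plc
  rw [if_pos h]

theorem blk0 {V : Type} (L : ℕ) (r : Fin 3) (x : Fin 6 → V) : blk L r 0 x = blk L 0 0 x := by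
  funext c
  unfold blk
  rw [plc0, plc0]

theorem bls0 {V : Type} {ρ : Sig} {𝔹 : Str ρ V} {r : Fin 3} {s : Fin ρ.m → Prop}
    {x : Fin 6 → V} (h : BlS 𝔹 0 0 s x) : BlS 𝔹 r 0 s x :=
  ⟨fun c c' hc => h.1 c c' ((ent0 0 c c').2 ((ent0 r c c').1 hc)), h.2⟩

theorem bls0' {V : Type} {ρ : Sig} {𝔹 : Str ρ V} {r : Fin 3} {s : Fin ρ.m → Prop}
    {x : Fin 6 → V} (h : BlS 𝔹 r 0 s x) : BlS 𝔹 0 0 s x :=
  ⟨fun c c' hc => h.1 c c' ((ent0 r c c').2 ((ent0 0 c c').1 hc)), h.2⟩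

theorem pf_EX0 : T_EX0 := by
  rintro V ρ 𝔹 L Φ r s J ⟨h1, h2⟩
  refine ⟨fun c c' hc => h1 c c' ((ent0 r c c').2 ((ent0 0 c c').1 hc)), ?_⟩
  intro x y rk hx hy hrk
  have h3 := h2 x y rk (bls0 hx) (bls0 hy)
  rw [blk0 L r x, blk0 L r y] at h3
  exact h3 hrk

/-- ranks on finite sets -/
theorem exists_rk {X J : Type} [Finite J] (a : J → X) : ∃ rk : X → ℕ, RkI rk a := by
  have h : (Set.range a).Finite := Set.finite_range a
  obtain ⟨f, hf⟩ := Set.countable_iff_exists_injOn.1 h.countable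
  exact ⟨f, fun i j hij => hf ⟨i, rfl⟩ ⟨j, rfl⟩ hij⟩

theorem bls_const {V : Type} {ρ : Sig} (𝔹 : Str ρ V) (r : Fin 3) (j : ℕ) (v : V) :
    BlS 𝔹 r j (ty 𝔹 v) (fun _ => v) := ⟨fun _ _ _ => rfl, fun _ => rfl⟩

/-- the unary map of a shape -/
theorem unary {V : Type} {σ ρ : Sig} {𝔸 : Str σ V} {𝔹 : Str ρ V} {L : ℕ}
    {Φ : Kd ρ L JJ → Yc ρ} (hB : BehC 𝔸 𝔹 L Φ) (r : Fin 3) (j : ℕ) (hj : j ≤ 2 * L + 2)
    (W : Type) [Finite W] (G : W → V) : ∃ (ψ : W → V) (rk : Pl L × V → ℕ),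
      Cx 𝔸 (fun _ : Unit => G) ψ ∧
      (∀ w w', RkI rk (Sum.elim (blk L r j (fun _ => G w)) (blk L r j (fun _ => G w')))) ∧
      ∀ w w', col2 𝔹 (ψ w) (ψ w') =
        Fv 𝔹 Φ rk (blk L r j (fun _ => G w)) (blk L r j (fun _ => G w')) := by
  obtain ⟨rk, hrk⟩ := exists_rk (fun q : W × Fin 6 => (plc L r j q.2, G q.1))
  obtain ⟨ψ, h1, h2⟩ := hB r j hj Unit W (fun _ => ()) (fun _ => G) rk (fun _ _ _ => rfl) hrk
  refine ⟨ψ, rk, h1, fun w w' => ?_, h2⟩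
  rintro (c | c) (c' | c') h
  · exact hrk (w, c) (w, c') h
  · exact hrk (w, c) (w', c') h
  · exact hrk (w', c) (w, c') h
  · exact hrk (w', c) (w', c') h

theorem pf_JNE : T_JNE := by
  intro V σ ρ 𝔸 𝔹 L Φ hB r j hj s J hJ hn
  by_contra hne
  rw [Set.not_nonempty_iff_eq_empty] at hne
  apply hn
  intro W _ G
  obtain ⟨ψ, rk, h1, h2, h3⟩ := unary hB r j hj W G
  refine ⟨ψ, h1, fun w w' hw hw' => ?_⟩
  have h4 := (hJ.2 (fun _ => G w) (fun _ => G w') rk (hw ▸ bls_const 𝔹 r j (G w))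
    (hw' ▸ bls_const 𝔹 r j (G w')) (h2 w w')).2 (by
      intro c hc
      rw [hne] at hc
      exact absurd hc (Set.notMem_empty c))
  rw [← h3 w w'] at h4
  exact h4

theorem rki_left {X J J' : Type} {rk : X → ℕ} {a : J → X} {b : J' → X}
    (h : RkI rk (Sum.elim a b)) : RkI rk a := fun i j hij => h (Sum.inl i) (Sum.inl j) hij

theorem pf_THB : T_THB := by
  intro V σ ρ 𝔸 𝔹 L Φ hB r j hj θ hθ W _ G
  obtain ⟨ψ, rk, h1, h2, h3⟩ := unary hB r j hj W G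
  refine ⟨ψ, h1, fun w => ?_⟩
  have h4 := hθ (ty 𝔹 (G w)) (fun _ => G w) rk (bls_const 𝔹 r j (G w)) (rki_left (h2 w w))
  rw [← h3 w w] at h4
  exact h4

theorem pf_UNB : T_UNB := by
  intro V σ ρ 𝔸 𝔹 L Φ hB hJ θ hθ W _ G
  obtain ⟨ψ, rk, h1, h2, h3⟩ := unary hB 0 0 (by omega) W G
  refine ⟨ψ, h1, fun w => ?_, fun w w' hw hn => ?_⟩
  · have h4 := hθ (ty 𝔹 (G w)) (fun _ => G w) rk (bls_const 𝔹 0 0 (G w)) (rki_left (h2 w w))
    rw [← h3 w w] at h4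
    exact h4
  · obtain ⟨J, hJ1, c, hc⟩ := hJ (ty 𝔹 (G w)) ⟨G w, rfl⟩ hn
    have h4 := hJ1.2 (fun _ => G w) (fun _ => G w') rk (bls_const 𝔹 0 0 (G w))
      (hw ▸ bls_const 𝔹 0 0 (G w')) (h2 w w')
    rw [← h3 w w'] at h4
    exact h4.trans ⟨fun h => h c hc, fun h _ _ => h⟩

theorem pf_THA : T_THA := by
  intro V σ ρ 𝔸 𝔹 L Φ h1 h2 h3
  obtain ⟨θ, hθ⟩ := h1 0 0 (by omega)
  refine ⟨θ, h2 0 0 (by omega) θ hθ, ?_⟩
  intro r j
  induction j with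
  | zero =>
    intro _ s x rk hx hrk
    rw [blk0 L r x] at hrk ⊢
    exact hθ s x rk (bls0' hx) hrk
  | succ j ih =>
    intro hj
    have hj' : IsTh 𝔹 Φ r j θ := ih (by omega)
    obtain ⟨θ', hθ'⟩ := h1 r (j + 1) hj
    have h4 := h3 r j (by omega) θ θ' hj' hθ' (h2 r j (by omega) θ hj')
    intro s x rk hx hrk
    rw [← h4 s ⟨x 0, hx.2 0⟩]
    exact hθ' s x rk hx hrk

end Pool.Agent.H44.KR
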