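import Pool.Agent.H44.KR.Small

/-!
# Kernels of canonical maps for structures with local completions: small rows, 2
-/

set_option autoImplicit false
set_option linter.unusedVariables false

namespace Pool.Agent.H44.KR

open Pool.Agent.H68.BP Pool.Agent.H58.SF Pool.Agent.H53.NR Pool.Agent.H53.GM
open Pool.Agent.H57.LCI (LocalCompletions Pre Realizes)
open Pool.Agent.H57.AR (tp ty)
open Pool.Agent.H57.EQ (Cx)
open Function
open Classical

theorem pf_BEH : T_BEH := by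
  intro V σ ρ 𝔸 𝔹 L Φ hP hC r j hj I W _ la G rk hla hrk
  have hp := hP r j hj
  obtain ⟨ψ, h1, h2⟩ := hC.out r W (fun w => blk L r j (fun c => G (la c) w)) rk
    ⟨fun w c => hp.at_ c, fun w w' c => hp.adj c c,
      fun Z w w' c c' h h' _ => (hp.eq c c').2 (hp.sh Z c c' h h'), hrk⟩
  refine ⟨ψ, fun l z hz => h1 l z fun c => hz (la c), fun w w' => ?_⟩
  refine h2 w w' ?_
  rintro (c | c) (c' | c')
  · exact hp.adj c c'
  · exact hp.adj c c'
  · exact hp.adj c c'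
  · exact hp.adj c c'

/-- the kind of a block and itself -/
theorem kv_self {V : Type} {ρ : Sig} {𝔹 : Str ρ V} {L : ℕ} {r : Fin 3} {j : ℕ}
    (hp : Plf L r j) {s : Fin ρ.m → Prop} {x x' : Fin 6 → V} (hx : BlS 𝔹 r j s x)
    (hx' : BlS 𝔹 r j s x') (rk rk' : Pl L × V → ℕ) :
    kv 𝔹 rk (Sum.elim (blk L r j x) (blk L r j x)) =
      kv 𝔹 rk' (Sum.elim (blk L r j x') (blk L r j x')) := by
  have hel : ∀ (y : Fin 6 → V) (i : JJ), Sum.elim (blk L r j y) (blk L r j y) i =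
      (plc L r j (Sum.elim id id i), y (Sum.elim id id i)) := by
    rintro y (c | c) <;> rfl
  have heq : ∀ (y : Fin 6 → V), BlS 𝔹 r j s y → ∀ c c',
      ((plc L r j c, y c) = (plc L r j c', y c')) ↔ Ent r j c c' := by
    intro y hy c c'
    constructor
    · intro h
      exact (hp.eq c c').1 (congrArg Prod.fst h)
    · intro h
      exact Prod.ext ((hp.eq c c').2 h) (hy.1 c c' h)
  have hod : ∀ (y : Fin 6 → V) (k : Pl L × V → ℕ), BlS 𝔹 r j s y → ∀ c c',
      (plc L r j c = plc L r j c' ∧ k (plc L r j c, y c) < k (plc L r j c', y c')) ↔ False := by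
    intro y k hy c c'
    constructor
    · rintro ⟨h1, h2⟩
      have h3 := (heq y hy c c').2 ((hp.eq c c').1 h1)
      rw [h3] at h2
      exact lt_irrefl _ h2
    · exact False.elim
  refine Prod.ext ?_ (Prod.ext ?_ (Prod.ext ?_ ?_))
  · funext i
    show (Sum.elim (blk L r j x) (blk L r j x) i).1 = (Sum.elim (blk L r j x') (blk L r j x') i).1
    rw [hel x i, hel x' i]
  · funext i i'
    show (Sum.elim (blk L r j x) (blk L r j x) i = Sum.elim (blk L r j x) (blk L r j x) i') =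
      (Sum.elim (blk L r j x') (blk L r j x') i = Sum.elim (blk L r j x') (blk L r j x') i')
    rw [hel, hel, hel, hel]
    exact propext ((heq x hx _ _).trans (heq x' hx' _ _).symm)
  · funext i i'
    show ((Sum.elim (blk L r j x) (blk L r j x) i).1 = (Sum.elim (blk L r j x) (blk L r j x) i').1
        ∧ rk (Sum.elim (blk L r j x) (blk L r j x) i) <
          rk (Sum.elim (blk L r j x) (blk L r j x) i')) =
      ((Sum.elim (blk L r j x') (blk L r j x') i).1 =
        (Sum.elim (blk L r j x') (blk L r j x') i').1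
        ∧ rk' (Sum.elim (blk L r j x') (blk L r j x') i) <
          rk' (Sum.elim (blk L r j x') (blk L r j x') i'))
    rw [hel, hel, hel, hel]
    exact propext ((hod x rk hx _ _).trans (hod x' rk' hx' _ _).symm)
  · funext l z
    show ((∃ Z, ∀ i, inSh Z (Sum.elim (blk L r j x) (blk L r j x) (z i)).1) ∧
        𝔹 l (fun i => (Sum.elim (blk L r j x) (blk L r j x) (z i)).2)) =
      ((∃ Z, ∀ i, inSh Z (Sum.elim (blk L r j x') (blk L r j x') (z i)).1) ∧
        𝔹 l (fun i => (Sum.elim (blk L r j x') (blk L r j x') (z i)).2))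
    have h1 : ∀ (y : Fin 6 → V), BlS 𝔹 r j s y →
        (((∃ Z, ∀ i, inSh Z (Sum.elim (blk L r j y) (blk L r j y) (z i)).1) ∧
          𝔹 l (fun i => (Sum.elim (blk L r j y) (blk L r j y) (z i)).2)) ↔
        ((∃ Z, ∀ i, inSh Z (plc L r j (Sum.elim id id (z i)))) ∧ s l)) := by
      intro y hy
      have h2 : (∃ Z, ∀ i, inSh Z (Sum.elim (blk L r j y) (blk L r j y) (z i)).1) ↔
          (∃ Z, ∀ i, inSh Z (plc L r j (Sum.elim id id (z i)))) := by
        constructor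
        · rintro ⟨Z, h⟩
          refine ⟨Z, fun i => ?_⟩
          have h3 := h i
          rw [hel] at h3
          exact h3
        · rintro ⟨Z, h⟩
          refine ⟨Z, fun i => ?_⟩
          rw [hel]
          exact h i
      rw [h2]
      refine and_congr_right ?_
      rintro ⟨Z, hZ⟩
      rcases Nat.eq_zero_or_pos (ρ.ar l) with h0 | h0
      · have h4 : ty 𝔹 (y 0) = s := hy.2 0
        rw [← h4]
        show _ ↔ 𝔹 l (fun _ => y 0)
        have h5 : (fun i => (Sum.elim (blk L r j y) (blk L r j y) (z i)).2) = fun _ => y 0 := by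
          funext i
          exact absurd i.2 (by omega)
        rw [h5]
      · have h4 : ty 𝔹 (y (Sum.elim id id (z ⟨0, h0⟩))) = s := hy.2 _
        rw [← h4]
        show _ ↔ 𝔹 l (fun _ => y (Sum.elim id id (z ⟨0, h0⟩)))
        have h5 : (fun i => (Sum.elim (blk L r j y) (blk L r j y) (z i)).2) =
            fun _ => y (Sum.elim id id (z ⟨0, h0⟩)) := by
          funext i
          rw [hel]
          exact hy.1 _ _ (hp.sh Z _ _ (hZ i) (hZ _))
        rw [h5]
    exact propext ((h1 x hx).trans (h1 x' hx').symm)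

theorem pf_TH0 : T_TH0 := by
  intro V ρ 𝔹 L Φ r j hp
  refine ⟨fun s => if h : ∃ x : Fin 6 → V, BlS 𝔹 r j s x then
    (Fv 𝔹 Φ (fun _ => 0) (blk L r j h.choose) (blk L r j h.choose)).2.1 else s, ?_⟩
  intro s x rk hx hrk
  have h : ∃ x : Fin 6 → V, BlS 𝔹 r j s x := ⟨x, hx⟩
  refine Eq.trans ?_ (dif_pos h).symm
  unfold Fv
  rw [kv_self hp hx h.choose_spec rk (fun _ => 0)]

theorem ent_symm {r : Fin 3} {j : ℕ} {c c' : Fin 6} (h : Ent r j c c') : Ent r j c' c := by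
  rcases h with h | ⟨h1, h2⟩
  · exact Or.inl h.symm
  · exact Or.inr ⟨h1.symm, h1 ▸ h2⟩

theorem ent_trans {r : Fin 3} {j : ℕ} {c c' c'' : Fin 6} (h : Ent r j c c')
    (h' : Ent r j c' c'') : Ent r j c c'' := by
  rcases h with h | ⟨h1, h2⟩
  · rw [h]
    exact h'
  · rcases h' with h' | ⟨h3, h4⟩
    · rw [← h']
      exact Or.inr ⟨h1, h2⟩
    · exact Or.inr ⟨h1.trans h3, h2⟩

theorem pf_TWO : T_TWO := by
  intro V σ ρ 𝔸 𝔹 L Φ hB r j hj θ hθ s hn J hJ c hc c' hc' hne W _ G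
  let la : Fin 6 → Fin 2 := fun c₁ => if Ent r j c c₁ then 0 else 1
  have hla : Sat r j la := by
    intro c₁ c₂ h
    show (if Ent r j c c₁ then (0 : Fin 2) else 1) = if Ent r j c c₂ then 0 else 1
    by_cases h1 : Ent r j c c₁
    · rw [if_pos h1, if_pos (ent_trans h1 h)]
    · rw [if_neg h1, if_neg fun h2 => h1 (ent_trans h2 (ent_symm h))]
  have hc0 : la c = 0 := if_pos (Or.inl rfl)
  have hc1 : la c' = 1 := if_neg hne
  obtain ⟨rk, hrk⟩ := exists_rk (fun q : W × Fin 6 => (plc L r j q.2, G (la q.2) q.1))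
  obtain ⟨ψ₀, h1, h2⟩ := hB r j hj (Fin 2) W la G rk hla hrk
  have hbl : ∀ w, OfS 𝔹 s G w → BlS 𝔹 r j s (fun c => G (la c) w) := by
    intro w hw
    refine ⟨fun c₁ c₂ h => ?_, fun c₁ => hw _⟩
    show G (la c₁) w = G (la c₂) w
    rw [hla c₁ c₂ h]
  have hrk2 : ∀ w w', RkI rk (Sum.elim (blk L r j (fun c => G (la c) w))
      (blk L r j (fun c => G (la c) w'))) := by
    intro w w'
    rintro (a | a) (a' | a') h
    · exact hrk (w, a) (w, a') h
    · exact hrk (w, a) (w', a') h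
    · exact hrk (w', a) (w, a') h
    · exact hrk (w', a) (w', a') h
  have hty : ∀ w, OfS 𝔹 s G w → ty 𝔹 (ψ₀ w) = θ s := by
    intro w hw
    have h3 := hθ s _ rk (hbl w hw) (rki_left (hrk2 w w))
    rw [← h2 w w] at h3
    exact h3
  obtain ⟨ψ, h4, h5, h6⟩ := hn W ψ₀
  refine ⟨ψ, cx_comp h1 h4, fun w hw => h5 w (hty w hw), fun w w' hw hw' he => ?_⟩
  have h7 : ψ₀ w = ψ₀ w' := (h6 w w' (hty w hw) (hty w' hw')).1 he
  have h8 := hJ.2 _ _ rk (hbl w hw) (hbl w' hw') (hrk2 w w')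
  rw [← h2 w w'] at h8
  have h9 := h8.1 h7
  intro i
  have h10 := h9 c hc
  have h11 := h9 c' hc'
  rw [hc0] at h10
  rw [hc1] at h11
  rcases i with ⟨v, hv⟩
  interval_cases v
  · exact h10
  · exact h11

theorem pf_CHN : T_CHN := by
  intro L r e hne
  have hex : ∃ j, ¬ Ent r j (e j) (e 0) := by
    refine ⟨2 * L + 2, ?_⟩
    rintro (h | ⟨h, -⟩)
    · rw [h] at hne
      exact hne rfl
    · exact hne h.symm
  have h1 := Nat.find_spec hex
  have h2 : Nat.find hex ≤ 2 * L + 2 := by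
    refine Nat.find_min' hex ?_
    rintro (h | ⟨h, -⟩)
    · rw [h] at hne
      exact hne rfl
    · exact hne h.symm
  obtain ⟨j, hj⟩ : ∃ j, Nat.find hex = j + 1 := by
    refine ⟨Nat.find hex - 1, ?_⟩
    have h3 : Nat.find hex ≠ 0 := by
      intro h4
      rw [h4] at h1
      exact h1 (Or.inl rfl)
    omega
  have h3 : Ent r j (e j) (e 0) := by
    by_contra h4
    exact Nat.find_min hex (by omega) h4
  rw [hj] at h1 h2
  refine ⟨j, by omega, fun c hc hc' => h1 ?_⟩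
  -- all letters are equal
  have hl1 : lr r (e j) = lr r (e 0) := by
    rcases h3 with h | ⟨h, -⟩
    · rw [h]
    · exact h
  have hl2 : lr r (e j) = lr r c := by
    rcases hc with h | ⟨h, -⟩
    · rw [h]
    · exact h
  have hl3 : lr r (e (j + 1)) = lr r c := by
    rcases hc' with h | ⟨h, -⟩
    · rw [h]
    · exact h
  have hl4 : lr r (e (j + 1)) = lr r (e 0) := by rw [hl3, ← hl2, hl1]
  by_cases h5 : sh (j + 1) (lr r (e (j + 1))) = 0
  · -- then the stage in the shape `j` is also zero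
    have h6 : sh j (lr r (e j)) = 0 := by
      rw [hl1, ← hl4]
      revert h5
      unfold sh
      rcases lr r (e (j + 1)) with ⟨v, hv⟩
      interval_cases v
      · show (j + 1 + 1) / 2 = 0 → (j + 1) / 2 = 0
        omega
      · show (j + 1) / 2 = 0 → j / 2 = 0
        omega
    have h7 : e j = e 0 := by
      rcases h3 with h | ⟨-, h⟩
      · exact h
      · exact absurd h6 h
    have h8 : e j = c := by
      rcases hc with h | ⟨-, h⟩
      · exact h
      · exact absurd h6 h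
    rw [← h7, h8]
    exact hc'
  · exact Or.inr ⟨hl4, h5⟩

theorem pf_DSC : T_DSC := by
  rintro V σ ρ 𝔸 𝔹 s ⟨k, hk⟩ W _ G
  -- the local maps
  let Lo : Set (W → V) := {γ | Cx 𝔸 G γ ∧ ∀ w, OfS 𝔹 s G w → ty 𝔹 (γ w) = s}
  let Kr : (W → V) → Set (W × W) := fun γ =>
    {p | OfS 𝔹 s G p.1 ∧ OfS 𝔹 s G p.2 ∧ γ p.1 = γ p.2}
  have hLo : ∃ γ, γ ∈ Lo := ⟨G 0, fun l z hz => hz 0, fun w hw => hw 0⟩
  obtain ⟨γ, hγ, hmin⟩ : ∃ γ ∈ Lo, ∀ γ' ∈ Lo, (Kr γ).ncard ≤ (Kr γ').ncard := by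
    obtain ⟨γ₀, h0⟩ := hLo
    have h1 : ∃ n, ∃ γ ∈ Lo, (Kr γ).ncard = n := ⟨_, γ₀, h0, rfl⟩
    obtain ⟨γ, h2, h3⟩ := Nat.find_spec h1
    refine ⟨γ, h2, fun γ' h4 => ?_⟩
    rw [h3]
    exact Nat.find_min' h1 ⟨γ', h4, rfl⟩
  refine ⟨γ, hγ.1, hγ.2, ?_⟩
  by_contra hcon
  push Not at hcon
  obtain ⟨p, p', hp, hp', hpe, i, hi⟩ := hcon
  -- the new map
  obtain ⟨ψ, h1, h2, h3⟩ : ∃ ψ : W → V, Cx 𝔸 G ψ ∧ (∀ w, OfS 𝔹 s G w → ty 𝔹 (ψ w) = s) ∧
      ∀ w w', OfS 𝔹 s G w → OfS 𝔹 s G w' → (ψ w = ψ w' ↔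
        (γ w = γ p ∧ γ w' = γ p ∧ G i w = G i w') ∨
          (γ w ≠ γ p ∧ γ w' ≠ γ p ∧ γ w = γ w')) := by
    have hk2 : k = 0 ∨ k = 1 := by
      rcases k with ⟨v, hv⟩
      interval_cases v
      · exact Or.inl rfl
      · exact Or.inr rfl
    rcases hk2 with rfl | rfl
    · obtain ⟨ψ, h1, h2, h3⟩ := hk W ![γ, G i] {γ p}
      have hof : ∀ w, OfS 𝔹 s G w → OfS 𝔹 s ![γ, G i] w := by
        intro w hw a
        rcases a with ⟨v, hv⟩
        interval_cases v
        · exact hγ.2 w hw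
        · exact hw i
      refine ⟨ψ, fun l z hz => h1 l z fun a => ?_, fun w hw => h2 w (hof w hw),
        fun w w' hw hw' => ?_⟩
      · rcases a with ⟨v, hv⟩
        interval_cases v
        · exact hγ.1 l z hz
        · exact hz i
      · refine (h3 w w' (hof w hw) (hof w' hw')).trans ?_
        show (γ w ∉ ({γ p} : Set V) ∧ γ w' ∉ ({γ p} : Set V) ∧ γ w = γ w') ∨
          (γ w ∈ ({γ p} : Set V) ∧ γ w' ∈ ({γ p} : Set V) ∧ G i w = G i w') ↔ _
        simp only [Set.mem_singleton_iff]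
        tauto
    · obtain ⟨ψ, h1, h2, h3⟩ := hk W ![G i, γ] {v | v ≠ γ p}
      have hof : ∀ w, OfS 𝔹 s G w → OfS 𝔹 s ![G i, γ] w := by
        intro w hw a
        rcases a with ⟨v, hv⟩
        interval_cases v
        · exact hw i
        · exact hγ.2 w hw
      refine ⟨ψ, fun l z hz => h1 l z fun a => ?_, fun w hw => h2 w (hof w hw),
        fun w w' hw hw' => ?_⟩
      · rcases a with ⟨v, hv⟩
        interval_cases v
        · exact hz i
        · exact hγ.1 l z hz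
      · refine (h3 w w' (hof w hw) (hof w' hw')).trans ?_
        show (γ w ∉ {v | v ≠ γ p} ∧ γ w' ∉ {v | v ≠ γ p} ∧ G i w = G i w') ∨
          (γ w ∈ {v | v ≠ γ p} ∧ γ w' ∈ {v | v ≠ γ p} ∧ γ w = γ w') ↔ _
        simp only [Set.mem_ofPred_eq]
        tauto
  have h4 : Kr ψ ⊆ Kr γ := by
    rintro ⟨w, w'⟩ ⟨hw, hw', he⟩
    refine ⟨hw, hw', ?_⟩
    rcases (h3 w w' hw hw').1 he with ⟨h5, h6, -⟩ | ⟨-, -, h5⟩
    · exact h5.trans h6.symm
    · exact h5
  have h5 : (p, p') ∈ Kr γ := ⟨hp, hp', hpe⟩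
  have h6 : (p, p') ∉ Kr ψ := by
    rintro ⟨-, -, he⟩
    rcases (h3 p p' hp hp').1 he with ⟨-, -, h7⟩ | ⟨h7, -, -⟩
    · exact hi h7
    · exact h7 rfl
  have h7 : (Kr ψ).ncard < (Kr γ).ncard :=
    Set.ncard_lt_ncard ⟨h4, fun h8 => h6 (h8 h5)⟩ (Set.toFinite _)
  exact absurd (hmin ψ ⟨h1, h2⟩) (by omega)

end Pool.Agent.H44.KR
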