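import Pool.Agent.H44.KR.Asm
import Pool.Agent.H44.KR.Small
import Pool.Agent.H44.KR.Small2
import Pool.Agent.H19.KR.CYC
import Pool.Agent.H19.KR.RMO
import Pool.Agent.H19.KR.JMP
import Pool.Agent.H20.KR.CAN
import Pool.Agent.H29.KR.JEX
import Pool.Agent.H29.KR.TAM
import Pool.Agent.H34.KR.EXE
import Pool.Agent.H34.KR.NRM
import Pool.Agent.H34.KR.PLF
import Pool.Agent.H34.KR.PLS
import Pool.Agent.H34.KR.RTP
import Pool.Agent.H34.KR.THS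
import Pool.Agent.H40.KR.UNI
import Pool.Agent.H54.KR.CNV
import Pool.Agent.H56.KR.AX2
import Pool.Agent.H56.KR.AX3
import Pool.Agent.H56.KR.IDX
import Pool.Agent.H56.KR.LCS
import Pool.Agent.H56.KR.UNF
import Pool.Agent.H62.KR.MIX
import Pool.Agent.H54.GM.PWG
import Pool.Agent.H53.GXR.All

/-!
# Kernels of canonical maps for structures with local completions: the theorem
-/

set_option autoImplicit false

namespace Pool.Agent.H44.KR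

open Pool.Agent.H68.BP Pool.Agent.H58.SF Pool.Agent.H53.NR Pool.Agent.H53.GM

theorem a_P1 : P1 where
  lcs := Pool.Agent.H56.KR.pf_LCS
  ax1 := pf_AX1
  ax2 := Pool.Agent.H56.KR.pf_AX2
  ax3 := Pool.Agent.H56.KR.pf_AX3
  rmo := Pool.Agent.H19.KR.pf_RMO Pool.Agent.H53.GXR.All.a_RAM Pool.Agent.H56.KR.pf_IDX
    Pool.Agent.H34.KR.pf_RTP
  unf := Pool.Agent.H56.KR.pf_UNF
  can := Pool.Agent.H20.KR.pf_CAN Pool.Agent.H54.GM.pf_PWG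
  uni := Pool.Agent.H40.KR.pf_UNI
  cnv := Pool.Agent.H54.KR.pf_CNV

theorem a_P2 : P2 where
  plf := Pool.Agent.H34.KR.pf_PLF
  pls := Pool.Agent.H34.KR.pf_PLS
  beh := pf_BEH
  cyc := Pool.Agent.H19.KR.pf_CYC
  tam := Pool.Agent.H29.KR.pf_TAM
  jex := Pool.Agent.H29.KR.pf_JEX
  jne := pf_JNE
  th0 := pf_TH0
  thb := pf_THB
  ths := Pool.Agent.H34.KR.pf_THS
  tha := pf_THA
  unb := pf_UNB
  nrm := Pool.Agent.H34.KR.pf_NRM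
  two := pf_TWO
  mix := Pool.Agent.H62.KR.pf_MIX
  jmp := Pool.Agent.H19.KR.pf_JMP
  nrj := pf_NRJ
  dsc := pf_DSC
  chn := pf_CHN
  pat := pf_PAT
  ex0 := pf_EX0
  exe := Pool.Agent.H34.KR.pf_EXE

/-- the kernel theorem -/
theorem ker_main {V : Type} {σ ρ : Sig} {𝔸 : Str σ V} {𝔹 : Str ρ V} (hB : HB 𝔹)
    (hc : Countable V) (ht : Tyi 𝔸 𝔹) (hO : Oligo 𝔸) (hK : ¬ PPConstructsK3 𝔸)
    (hP : Prm 𝔸 𝔹) : ∀ s ∈ Rlz 𝔹, Clp 𝔸 𝔹 s ∨ LInj 𝔸 𝔹 s :=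
  ker a_P1 a_P2 hB hc ht hO hK hP

/-- the Ramsey property and local completions -/
theorem ram_main {V : Type} {ρ : Sig} {𝔹 : Str ρ V} (hB : HB 𝔹) :
    ∃ N, LcN 𝔹 N ∧ ∀ L, RmL 𝔹 L := by
  obtain ⟨N, hN⟩ := a_P1.lcs V ρ 𝔹 hB
  exact ⟨N, hN, fun L => a_P1.rmo V ρ 𝔹 hB N L fun Q pl => a_P1.axs hB hN L Q pl⟩

end Pool.Agent.H44.KR
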