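import Pool.Agent.H44.KR.Defs

/-!
# Kernels of canonical maps for structures with local completions: targets
-/

set_option autoImplicit false
set_option linter.unusedVariables false

namespace Pool.Agent.H44.KR

open Pool.Agent.H68.BP Pool.Agent.H58.SF Pool.Agent.H53.NR Pool.Agent.H53.GM
open Pool.Agent.H57.LCI (LocalCompletions Pre Realizes)
open Pool.Agent.H57.AR (tp ty)
open Pool.Agent.H57.EQ (Cx)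
open Function
open Classical

/-! ### Part 1: the canonization -/

/-- local completions for families of labelled sets, with the bound `N` -/
def LcN {V : Type} {ρ : Sig} (𝔹 : Str ρ V) (N : ℕ) : Prop :=
  ∀ (W Λ : Type) [Finite W] (s : Λ → Set W) (S : Λ → Str ρ W),
    (∀ U : Finset W, U.card ≤ N →
      ∃ f : W → V, ∀ a, Rz 𝔹 id (S a) {x | x ∈ s a ∧ x ∈ U} f) →
    ∃ f : W → V, ∀ a, Rz 𝔹 id (S a) (s a) f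

def T_LCS : Prop :=
  ∀ (V : Type) (ρ : Sig) (𝔹 : Str ρ V), HB 𝔹 → ∃ N : ℕ, LcN 𝔹 N

/-- preimages -/
def T_AX1 : Prop :=
  ∀ (V : Type) (ρ : Sig) (𝔹 : Str ρ V) (L : ℕ) (Q : Type) (pl : Q → Pl L) (W W' : Type)
    (C : Sy Q (Str ρ Q) W) (C' : Sy Q (Str ρ Q) W') (f : W → W'), Hm C C' f →
    kG 𝔹 L pl W' C' → kG 𝔹 L pl W C

/-- locality -/
def T_AX2 : Prop :=
  ∀ (V : Type) (ρ : Sig) (𝔹 : Str ρ V) (N : ℕ), LcN 𝔹 N →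
    ∀ (L : ℕ) (Q : Type) (pl : Q → Pl L) (W : Type) [Finite W] (C : Sy Q (Str ρ Q) W),
    IsSys (kC 𝔹 L pl) C →
    (∀ U : Finset W, U.card ≤ N → kG 𝔹 L pl W (C.res (U : Set W))) → kG 𝔹 L pl W C

/-- amalgamation over guards -/
def T_AX3 : Prop :=
  ∀ (V : Type) (ρ : Sig) (𝔹 : Str ρ V), HB 𝔹 → ∀ (L : ℕ) (Q : Type) (pl : Q → Pl L)
    (W : Type) [Finite W] (C : Sy Q (Str ρ Q) W) (U₁ U₂ : Set W) (g₀ : Finset W) (κ₀ : Str ρ Q),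
    IsSys (kC 𝔹 L pl) C → C.gd g₀ κ₀ → (∀ x, x ∈ g₀ ↔ x ∈ U₁ ∧ x ∈ U₂) →
    (∀ g κ, C.gd g κ → (∀ x ∈ g, x ∈ U₁) ∨ ∀ x ∈ g, x ∈ U₂) →
    kG 𝔹 L pl W (C.res U₁) → kG 𝔹 L pl W (C.res U₂) → kG 𝔹 L pl W C

/-- the copies with indices -/
def T_IDX : Prop :=
  ∀ (V : Type) (ρ : Sig) (𝔹 : Str ρ V), HB 𝔹 → ∀ (L R : ℕ) (X : Type) [Finite X] [Nonempty X]
    (C : GS ρ L X) (Ξ : Set (X → Fin R)), Good 𝔹 C → C.Sg → Ξ.Nonempty →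
    (∀ ξ ∈ Ξ, ∀ x y, C.pl x = C.pl y → ξ x = ξ y → x = y) →
    IsSys (kC 𝔹 L Prod.fst) (cpy C R Ξ) ∧ kG 𝔹 L Prod.fst _ (cpy C R Ξ) ∧
      (cpy C R Ξ).gd ∅ (fun _ _ => False)

/-- Ramsey's theorem for tuples -/
def T_RTP : Prop :=
  ∀ (J Y : Type) [Finite J] [Finite Y] (m : ℕ), ∃ R : ℕ, ∀ D : (J → Fin R) → Y,
    ∃ e : Fin m → Fin R, StrictMono e ∧ ∀ i i' : J → Fin m,
      (∀ a b, i a < i b ↔ i' a < i' b) → D (fun a => e (i a)) = D (fun a => e (i' a))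

/-- the Ramsey property of graded structures -/
def RmL {V : Type} {ρ : Sig} (𝔹 : Str ρ V) (L : ℕ) : Prop :=
  ∀ (X J Y : Type) [Finite X] [Nonempty X] [Finite J] [Finite Y] (C : GS ρ L X) (rk : X → ℕ),
    Good 𝔹 C → C.Sg → Injective rk → ∃ (X' : Type) (_ : Finite X') (C' : GS ρ L X'),
      Good 𝔹 C' ∧ ∀ F : (J → X') → Y, ∃ φ : X → X', GHm C C' φ ∧
        ∀ a a' : J → X, C.tup a → C.tup a' → kd C.pl C.st rk a = kd C.pl C.st rk a' →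
          F (fun j => φ (a j)) = F (fun j => φ (a' j))

def T_RMO : Prop :=
  ∀ (V : Type) (ρ : Sig) (𝔹 : Str ρ V), HB 𝔹 → ∀ (N L : ℕ),
    (∀ (Q : Type) (pl : Q → Pl L), Axs (kC 𝔹 L pl) N (kG 𝔹 L pl)) → RmL 𝔹 L

/-- the unfolding exists -/
def T_UNF : Prop :=
  ∀ (V : Type) (ρ : Sig) (𝔹 : Str ρ V), HB 𝔹 → ∀ N L : ℕ, N < L → LcN 𝔹 N →
    ∀ (X : Type) [Finite X] (C : GS ρ L X), Good 𝔹 C → ∃ u : Fin 6 → X → V, Unf 𝔹 C u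

/-- values for one graded structure -/
def T_CAN : Prop :=
  ∀ (V : Type) (σ ρ : Sig) (𝔸 : Str σ V) (𝔹 : Str ρ V) (L : ℕ), Nonempty V → Countable V →
    Oligo 𝔸 → ¬ PPConstructsK3 𝔸 → 1 ≤ L → RmL 𝔹 L →
    (∀ (X : Type) [Finite X] (C : GS ρ L X), Good 𝔹 C → ∃ u : Fin 6 → X → V, Unf 𝔹 C u) →
    ∀ (X : Type) [Finite X] [Nonempty X] (C : GS ρ L X) (rk : X → ℕ) (n : ℕ), Good 𝔹 C → C.Sg →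
      Injective rk → ∃ Φ, Vals 𝔸 𝔹 n C rk Φ

/-- uniform values -/
def T_UNI : Prop :=
  ∀ (V : Type) (σ ρ : Sig) (𝔸 : Str σ V) (𝔹 : Str ρ V) (L : ℕ), HB 𝔹 →
    (∀ (X : Type) [Finite X] [Nonempty X] (C : GS ρ L X) (rk : X → ℕ) (n : ℕ), Good 𝔹 C → C.Sg →
      Injective rk → ∃ Φ, Vals 𝔸 𝔹 n C rk Φ) →
    ∃ Φ, ∀ (X : Type) [Finite X] [Nonempty X] (C : GS ρ L X) (rk : X → ℕ) (n : ℕ), Good 𝔹 C →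
      C.Sg → Injective rk → Vals 𝔸 𝔹 n C rk Φ

/-- from graded structures to configurations in `V` -/
def T_CNV : Prop :=
  ∀ (V : Type) (σ ρ : Sig) (𝔸 : Str σ V) (𝔹 : Str ρ V) (L : ℕ) (Φ : Kd ρ L JJ → Yc ρ),
    Nonempty V → 1 ≤ L → Tyi 𝔸 𝔹 →
    (∀ (X : Type) [Finite X] [Nonempty X] (C : GS ρ L X) (rk : X → ℕ) (n : ℕ), Good 𝔹 C →
      C.Sg → Injective rk → Vals 𝔸 𝔹 n C rk Φ) → Can 𝔸 𝔹 L Φ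

/-! ### Part 2: blocks -/

/-- the places of the blocks -/
structure Plf (L : ℕ) (r : Fin 3) (j : ℕ) : Prop where
  at_ : ∀ c, At r c (plc L r j c)
  eq : ∀ c c', plc L r j c = plc L r j c' ↔ Ent r j c c'
  adj : ∀ c c', Adj (reg (plc L r j c)) (reg (plc L r j c'))
  sh : ∀ Z c c', inSh Z (plc L r j c) → inSh Z (plc L r j c') → Ent r j c c'

/-- the places of two successive shapes -/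
structure Pls (L : ℕ) (r : Fin 3) (j : ℕ) : Prop where
  mono : ∀ c c', Ent r j c c' → Ent r (j + 1) c c'
  eq : ∀ c c', plc L r j c = plc L r (j + 1) c' ↔ (Ent r (j + 1) c c' ∧ (lr r c : ℕ) ≠ j % 2)
  adj : ∀ c c', Adj (reg (plc L r j c)) (reg (plc L r (j + 1) c'))
  adj' : ∀ c c', Adj (reg (plc L r (j + 1) c)) (reg (plc L r j c'))
  sh : ∀ Z c c', inSh Z (plc L r j c) → inSh Z (plc L r (j + 1) c') → Ent r (j + 1) c c'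
  cm : ∀ c, ∃ Z, inSh Z (plc L r j c) ∧ inSh Z (plc L r (j + 1) c)

def T_PLF : Prop := ∀ (L : ℕ) (r : Fin 3) (j : ℕ), 1 ≤ L → j ≤ 2 * L + 2 → Plf L r j

def T_PLS : Prop := ∀ (L : ℕ) (r : Fin 3) (j : ℕ), 1 ≤ L → j < 2 * L + 2 → Pls L r j

/-- values at blocks of one shape -/
def BehC {V : Type} {σ ρ : Sig} (𝔸 : Str σ V) (𝔹 : Str ρ V) (L : ℕ) (Φ : Kd ρ L JJ → Yc ρ) :
    Prop :=
  ∀ (r : Fin 3) (j : ℕ), j ≤ 2 * L + 2 → ∀ (I W : Type) [Finite W] (la : Fin 6 → I)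
    (G : I → W → V) (rk : Pl L × V → ℕ), Sat r j la →
    RkI rk (fun q : W × Fin 6 => (plc L r j q.2, G (la q.2) q.1)) →
    ∃ ψ : W → V, Cx 𝔸 G ψ ∧ ∀ w w', col2 𝔹 (ψ w) (ψ w') =
      Fv 𝔹 Φ rk (blk L r j (fun c => G (la c) w)) (blk L r j (fun c => G (la c) w'))

def T_BEH : Prop :=
  ∀ (V : Type) (σ ρ : Sig) (𝔸 : Str σ V) (𝔹 : Str ρ V) (L : ℕ) (Φ : Kd ρ L JJ → Yc ρ),
    (∀ r j, j ≤ 2 * L + 2 → Plf L r j) → Can 𝔸 𝔹 L Φ → BehC 𝔸 𝔹 L Φ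

/-- zigzag cycles of elements of one type -/
def T_CYC : Prop :=
  ∀ (V : Type) (ρ : Sig) (𝔹 : Str ρ V), HB 𝔹 → ∀ N, LcN 𝔹 N → ∃ m : ℕ, 1 ≤ m ∧
    ∀ p q : Fin 2 → V, p 0 ≠ p 1 → q 0 ≠ q 1 → ty 𝔹 (p 1) = ty 𝔹 (p 0) →
      ty 𝔹 (q 0) = ty 𝔹 (p 0) → ty 𝔹 (q 1) = ty 𝔹 (p 0) →
      ∃ f : Fin (2 * m + 2) → V, Injective f ∧
        (∀ i i' : Fin (2 * m + 2), (i' : ℕ) = i + 1 →
          ((i : ℕ) % 2 = 0 → tp 𝔹 ![f i, f i'] = tp 𝔹 p) ∧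
          ((i : ℕ) % 2 = 1 → tp 𝔹 ![f i', f i] = tp 𝔹 p)) ∧
        tp 𝔹 ![f 0, f (Fin.last (2 * m + 1))] = tp 𝔹 q

/-- Equality of values at two blocks depends only on the set of the equal entries. -/
def TamC {V : Type} {ρ : Sig} (𝔹 : Str ρ V) (L : ℕ) (Φ : Kd ρ L JJ → Yc ρ) : Prop :=
  ∀ (r : Fin 3) (j : ℕ), j ≤ 2 * L + 2 → ∀ (s : Fin ρ.m → Prop) (x y x' y' : Fin 6 → V)
    (rk rk' : Pl L × V → ℕ), BlS 𝔹 r j s x → BlS 𝔹 r j s y → BlS 𝔹 r j s x' → BlS 𝔹 r j s y' →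
    RkI rk (Sum.elim (blk L r j x) (blk L r j y)) →
    RkI rk' (Sum.elim (blk L r j x') (blk L r j y')) → (∀ c, x c = y c ↔ x' c = y' c) →
    (Fv 𝔹 Φ rk (blk L r j x) (blk L r j y)).1 → (Fv 𝔹 Φ rk' (blk L r j x') (blk L r j y')).1

def T_TAM : Prop :=
  ∀ (V : Type) (σ ρ : Sig) (𝔸 : Str σ V) (𝔹 : Str ρ V) (L : ℕ) (Φ : Kd ρ L JJ → Yc ρ),
    (∀ r j, j ≤ 2 * L + 2 → Plf L r j) → BehC 𝔸 𝔹 L Φ →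
    (∃ m : ℕ, 1 ≤ m ∧
      ∀ p q : Fin 2 → V, p 0 ≠ p 1 → q 0 ≠ q 1 → ty 𝔹 (p 1) = ty 𝔹 (p 0) →
        ty 𝔹 (q 0) = ty 𝔹 (p 0) → ty 𝔹 (q 1) = ty 𝔹 (p 0) →
        ∃ f : Fin (2 * m + 2) → V, Injective f ∧
          (∀ i i' : Fin (2 * m + 2), (i' : ℕ) = i + 1 →
            ((i : ℕ) % 2 = 0 → tp 𝔹 ![f i, f i'] = tp 𝔹 p) ∧
            ((i : ℕ) % 2 = 1 → tp 𝔹 ![f i', f i] = tp 𝔹 p)) ∧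
          tp 𝔹 ![f 0, f (Fin.last (2 * m + 1))] = tp 𝔹 q) → TamC 𝔹 L Φ

/-- the determining positions -/
def T_JEX : Prop :=
  ∀ (V : Type) (σ ρ : Sig) (𝔸 : Str σ V) (𝔹 : Str ρ V) (L : ℕ) (Φ : Kd ρ L JJ → Yc ρ),
    HB 𝔹 → (∀ r j, j ≤ 2 * L + 2 → Plf L r j) → BehC 𝔸 𝔹 L Φ → TamC 𝔹 L Φ →
    ∀ (r : Fin 3) (j : ℕ), j ≤ 2 * L + 2 → ∀ s ∈ Rlz 𝔹, ∃ J, IsJ 𝔹 Φ r j s J

/-- there are determining positions -/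
def T_JNE : Prop :=
  ∀ (V : Type) (σ ρ : Sig) (𝔸 : Str σ V) (𝔹 : Str ρ V) (L : ℕ) (Φ : Kd ρ L JJ → Yc ρ),
    BehC 𝔸 𝔹 L Φ → ∀ (r : Fin 3) (j : ℕ), j ≤ 2 * L + 2 → ∀ (s : Fin ρ.m → Prop)
      (J : Set (Fin 6)), IsJ 𝔹 Φ r j s J → ¬ Clp 𝔸 𝔹 s → J.Nonempty

/-! ### Types of values -/

/-- The type of the value at a block depends only on the types of the entries. -/
def T_TH0 : Prop :=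
  ∀ (V : Type) (ρ : Sig) (𝔹 : Str ρ V) (L : ℕ) (Φ : Kd ρ L JJ → Yc ρ) (r : Fin 3) (j : ℕ),
    Plf L r j → ∃ θ, IsTh 𝔹 Φ r j θ

/-- the action on types at the shape -/
def T_THB : Prop :=
  ∀ (V : Type) (σ ρ : Sig) (𝔸 : Str σ V) (𝔹 : Str ρ V) (L : ℕ) (Φ : Kd ρ L JJ → Yc ρ),
    BehC 𝔸 𝔹 L Φ → ∀ (r : Fin 3) (j : ℕ), j ≤ 2 * L + 2 → ∀ θ, IsTh 𝔹 Φ r j θ → Sb 𝔸 𝔹 θ

/-- the action on types at successive shapes -/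
def T_THS : Prop :=
  ∀ (V : Type) (σ ρ : Sig) (𝔸 : Str σ V) (𝔹 : Str ρ V) (L : ℕ) (Φ : Kd ρ L JJ → Yc ρ),
    Can 𝔸 𝔹 L Φ → Prm 𝔸 𝔹 → ∀ (r : Fin 3) (j : ℕ), Plf L r j → Plf L r (j + 1) → Pls L r j →
    ∀ θ θ', IsTh 𝔹 Φ r j θ → IsTh 𝔹 Φ r (j + 1) θ' → Sb 𝔸 𝔹 θ → ∀ s ∈ Rlz 𝔹, θ' s = θ s

/-- one action on types for all shapes -/
def T_THA : Prop :=
  ∀ (V : Type) (σ ρ : Sig) (𝔸 : Str σ V) (𝔹 : Str ρ V) (L : ℕ) (Φ : Kd ρ L JJ → Yc ρ),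
    (∀ (r : Fin 3) (j : ℕ), j ≤ 2 * L + 2 → ∃ θ, IsTh 𝔹 Φ r j θ) →
    (∀ (r : Fin 3) (j : ℕ), j ≤ 2 * L + 2 → ∀ θ, IsTh 𝔹 Φ r j θ → Sb 𝔸 𝔹 θ) →
    (∀ (r : Fin 3) (j : ℕ), j < 2 * L + 2 → ∀ θ θ', IsTh 𝔹 Φ r j θ → IsTh 𝔹 Φ r (j + 1) θ' →
      Sb 𝔸 𝔹 θ → ∀ s ∈ Rlz 𝔹, θ' s = θ s) →
    ∃ θ, Sb 𝔸 𝔹 θ ∧ ∀ (r : Fin 3) (j : ℕ), j ≤ 2 * L + 2 → IsTh 𝔹 Φ r j θ

/-- unary maps with the action `θ` -/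
def UnC {V : Type} {σ ρ : Sig} (𝔸 : Str σ V) (𝔹 : Str ρ V)
    (θ : (Fin ρ.m → Prop) → (Fin ρ.m → Prop)) : Prop :=
  ∀ (W : Type) [Finite W] (G : W → V), ∃ ψ : W → V, Cx 𝔸 (fun _ : Unit => G) ψ ∧
    (∀ w, ty 𝔹 (ψ w) = θ (ty 𝔹 (G w))) ∧
    ∀ w w', ty 𝔹 (G w) = ty 𝔹 (G w') → ¬ Clp 𝔸 𝔹 (ty 𝔹 (G w)) → (ψ w = ψ w' ↔ G w = G w')

def T_UNB : Prop :=
  ∀ (V : Type) (σ ρ : Sig) (𝔸 : Str σ V) (𝔹 : Str ρ V) (L : ℕ) (Φ : Kd ρ L JJ → Yc ρ),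
    BehC 𝔸 𝔹 L Φ → (∀ s ∈ Rlz 𝔹, ¬ Clp 𝔸 𝔹 s → ∃ J, IsJ 𝔹 Φ 0 0 s J ∧ J.Nonempty) →
    ∀ θ, IsTh 𝔹 Φ 0 0 θ → UnC 𝔸 𝔹 θ

/-- unary maps with the inverse action at `s` -/
def NrmC {V : Type} {σ ρ : Sig} (𝔸 : Str σ V) (𝔹 : Str ρ V) (t s : Fin ρ.m → Prop) : Prop :=
  ∀ (W : Type) [Finite W] (G : W → V), ∃ ψ : W → V, Cx 𝔸 (fun _ : Unit => G) ψ ∧
    (∀ w, ty 𝔹 (G w) = t → ty 𝔹 (ψ w) = s) ∧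
    ∀ w w', ty 𝔹 (G w) = t → ty 𝔹 (G w') = t → (ψ w = ψ w' ↔ G w = G w')

def T_NRM : Prop :=
  ∀ (V : Type) (σ ρ : Sig) (𝔸 : Str σ V) (𝔹 : Str ρ V), Prm 𝔸 𝔹 → ∀ θ, Sb 𝔸 𝔹 θ →
    UnC 𝔸 𝔹 θ → ∀ s ∈ Rlz 𝔹, ¬ Clp 𝔸 𝔹 s → NrmC 𝔸 𝔹 (θ s) s

/-! ### Jumps -/

/-- two determining entries -/
def T_TWO : Prop :=
  ∀ (V : Type) (σ ρ : Sig) (𝔸 : Str σ V) (𝔹 : Str ρ V) (L : ℕ) (Φ : Kd ρ L JJ → Yc ρ),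
    BehC 𝔸 𝔹 L Φ → ∀ (r : Fin 3) (j : ℕ), j ≤ 2 * L + 2 → ∀ θ, IsTh 𝔹 Φ r j θ →
    ∀ s, NrmC 𝔸 𝔹 (θ s) s → ∀ J, IsJ 𝔹 Φ r j s J → ∀ c ∈ J, ∀ c' ∈ J, ¬ Ent r j c c' →
      LInj 𝔸 𝔹 s

/-- Blocks of successive shapes with disjoint determining entries have different values. -/
def MixC {V : Type} {ρ : Sig} (𝔹 : Str ρ V) (L : ℕ) (Φ : Kd ρ L JJ → Yc ρ) (r : Fin 3) (j : ℕ)
    (s : Fin ρ.m → Prop) : Prop :=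
  ∀ (x y : Fin 6 → V) (rk : Pl L × V → ℕ), BlS 𝔹 r j s x → BlS 𝔹 r (j + 1) s y →
    Cfg r (fun i : Fin 2 => if i = 0 then blk L r j x else blk L r (j + 1) y) rk →
    ¬ (Fv 𝔹 Φ rk (blk L r j x) (blk L r (j + 1) y)).1

def T_MIX : Prop :=
  ∀ (V : Type) (σ ρ : Sig) (𝔸 : Str σ V) (𝔹 : Str ρ V) (L : ℕ) (Φ : Kd ρ L JJ → Yc ρ),
    HB 𝔹 → Can 𝔸 𝔹 L Φ → ∀ (r : Fin 3) (j : ℕ), Plf L r j → Plf L r (j + 1) → Pls L r j →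
    ∀ (s : Fin ρ.m → Prop) (e e' : Fin 6), IsJ 𝔹 Φ r j s {c | Ent r j e c} →
      IsJ 𝔹 Φ r (j + 1) s {c | Ent r (j + 1) e' c} →
      (∀ c, Ent r j e c → ¬ Ent r (j + 1) e' c) → MixC 𝔹 L Φ r j s

/-- jumps between two maps -/
def JmpC {V : Type} {σ ρ : Sig} (𝔸 : Str σ V) (𝔹 : Str ρ V) (s t : Fin ρ.m → Prop) : Prop :=
  ∃ k : Fin 2, ∀ (W : Type) [Finite W] (G : Fin 2 → W → V) (M : Set V), ∃ ψ : W → V,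
    Cx 𝔸 G ψ ∧ (∀ w, OfS 𝔹 s G w → ty 𝔹 (ψ w) = t) ∧
    ∀ w w', OfS 𝔹 s G w → OfS 𝔹 s G w' → (ψ w = ψ w' ↔
      (G k w ∉ M ∧ G k w' ∉ M ∧ G 0 w = G 0 w') ∨ (G k w ∈ M ∧ G k w' ∈ M ∧ G 1 w = G 1 w'))

def T_JMP : Prop :=
  ∀ (V : Type) (σ ρ : Sig) (𝔸 : Str σ V) (𝔹 : Str ρ V) (L : ℕ) (Φ : Kd ρ L JJ → Yc ρ),
    Can 𝔸 𝔹 L Φ → ∀ (r : Fin 3) (j : ℕ), Plf L r j → Plf L r (j + 1) → Pls L r j →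
    ∀ θ, IsTh 𝔹 Φ r j θ → IsTh 𝔹 Φ r (j + 1) θ →
    ∀ (s : Fin ρ.m → Prop) (e e' : Fin 6), IsJ 𝔹 Φ r j s {c | Ent r j e c} →
      IsJ 𝔹 Φ r (j + 1) s {c | Ent r (j + 1) e' c} →
      (∀ c, Ent r j e c → ¬ Ent r (j + 1) e' c) → MixC 𝔹 L Φ r j s → JmpC 𝔸 𝔹 s (θ s)

/-- normalization of jumps -/
def T_NRJ : Prop :=
  ∀ (V : Type) (σ ρ : Sig) (𝔸 : Str σ V) (𝔹 : Str ρ V) (s t : Fin ρ.m → Prop),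
    JmpC 𝔸 𝔹 s t → NrmC 𝔸 𝔹 t s → JmpC 𝔸 𝔹 s s

/-- descent -/
def T_DSC : Prop :=
  ∀ (V : Type) (σ ρ : Sig) (𝔸 : Str σ V) (𝔹 : Str ρ V) (s : Fin ρ.m → Prop),
    JmpC 𝔸 𝔹 s s → LInj 𝔸 𝔹 s

/-- the chain of the shapes -/
def T_CHN : Prop :=
  ∀ (L : ℕ) (r : Fin 3) (e : ℕ → Fin 6), lr r (e 0) ≠ lr r (e (2 * L + 2)) →
    ∃ j, j < 2 * L + 2 ∧ ∀ c, Ent r j (e j) c → ¬ Ent r (j + 1) (e (j + 1)) c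

/-- the patterns -/
def T_PAT : Prop := ∀ (c : Fin 6) (d : Fin 2), ∃ r : Fin 3, lr r c ≠ d

/-- the first shape does not depend on the branch -/
def T_EX0 : Prop :=
  ∀ (V : Type) (ρ : Sig) (𝔹 : Str ρ V) (L : ℕ) (Φ : Kd ρ L JJ → Yc ρ) (r : Fin 3)
    (s : Fin ρ.m → Prop) (J : Set (Fin 6)), IsJ 𝔹 Φ r 0 s J → IsJ 𝔹 Φ 0 0 s J

/-- the determining letter of the last shape does not depend on the branch -/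
def T_EXE : Prop :=
  ∀ (V : Type) (σ ρ : Sig) (𝔸 : Str σ V) (𝔹 : Str ρ V) (L : ℕ) (Φ : Kd ρ L JJ → Yc ρ),
    HB 𝔹 → Can 𝔸 𝔹 L Φ → ∀ (r : Fin 3) (s : Fin ρ.m → Prop), s ∈ Rlz 𝔹 → ∀ d d' : Fin 2,
      IsJ 𝔹 Φ r (2 * L + 2) s {c | lr r c = d} →
      IsJ 𝔹 Φ 0 (2 * L + 2) s {c | lr 0 c = d'} → d = d'

end Pool.Agent.H44.KR
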