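import Pool.Agent.H44.KR.Targets

/-!
# Kernels of canonical maps for structures with local completions: assembly
-/

set_option autoImplicit false
set_option linter.unusedVariables false

namespace Pool.Agent.H44.KR

open Pool.Agent.H68.BP Pool.Agent.H58.SF Pool.Agent.H53.NR Pool.Agent.H53.GM
open Pool.Agent.H57.LCI (LocalCompletions Pre Realizes)
open Pool.Agent.H57.AR (tp ty)
open Pool.Agent.H57.EQ (Cx)
open Function
open Classical

/-- the targets of part 1 -/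
structure P1 : Prop where
  lcs : T_LCS
  ax1 : T_AX1
  ax2 : T_AX2
  ax3 : T_AX3
  rmo : T_RMO
  unf : T_UNF
  can : T_CAN
  uni : T_UNI
  cnv : T_CNV

/-- the targets of part 2 -/
structure P2 : Prop where
  plf : T_PLF
  pls : T_PLS
  beh : T_BEH
  cyc : T_CYC
  tam : T_TAM
  jex : T_JEX
  jne : T_JNE
  th0 : T_TH0
  thb : T_THB
  ths : T_THS
  tha : T_THA
  unb : T_UNB
  nrm : T_NRM
  two : T_TWO
  mix : T_MIX
  jmp : T_JMP
  nrj : T_NRJ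
  dsc : T_DSC
  chn : T_CHN
  pat : T_PAT
  ex0 : T_EX0
  exe : T_EXE

section

variable {V : Type} {σ ρ : Sig} {𝔸 : Str σ V} {𝔹 : Str ρ V}

theorem P1.axs (h : P1) (hB : HB 𝔹) {N : ℕ} (hN : LcN 𝔹 N) (L : ℕ) (Q : Type) (pl : Q → Pl L) :
    Axs (kC 𝔹 L pl) N (kG 𝔹 L pl) where
  g1 := fun W W' C C' f hf hG => h.ax1 V ρ 𝔹 L Q pl W W' C C' f hf hG
  g2 := fun W _ C hC hU => h.ax2 V ρ 𝔹 N hN L Q pl W C hC hU
  g3 := fun W _ C U₁ U₂ g₀ κ₀ hC hg h0 hU h1 h2 =>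
    h.ax3 V ρ 𝔹 hB L Q pl W C U₁ U₂ g₀ κ₀ hC hg h0 hU h1 h2

/-- the canonization -/
theorem P1.main (h : P1) (hB : HB 𝔹) (hc : Countable V) (ht : Tyi 𝔸 𝔹) (hO : Oligo 𝔸)
    (hK : ¬ PPConstructsK3 𝔸) : ∃ (L : ℕ) (Φ : Kd ρ L JJ → Yc ρ), 1 ≤ L ∧ Can 𝔸 𝔹 L Φ := by
  obtain ⟨N, hN⟩ := h.lcs V ρ 𝔹 hB
  obtain ⟨Φ, hΦ⟩ := h.uni V σ ρ 𝔸 𝔹 (N + 1) hB (h.can V σ ρ 𝔸 𝔹 (N + 1) hB.ne hc hO hK (by omega)
    (h.rmo V ρ 𝔹 hB N (N + 1) (fun Q pl => h.axs hB hN (N + 1) Q pl))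
    (fun X _ C hC => h.unf V ρ 𝔹 hB N (N + 1) (by omega) hN X C hC))
  exact ⟨N + 1, Φ, by omega, h.cnv V σ ρ 𝔸 𝔹 (N + 1) Φ hB.ne (by omega) ht hΦ⟩

/-- local injections -/
theorem P2.main (h : P2) (hl : T_LCS) (hB : HB 𝔹) {L : ℕ} {Φ : Kd ρ L JJ → Yc ρ} (hL : 1 ≤ L)
    (hC : Can 𝔸 𝔹 L Φ) (hP : Prm 𝔸 𝔹) (s : Fin ρ.m → Prop) (hs : s ∈ Rlz 𝔹)
    (hn : ¬ Clp 𝔸 𝔹 s) : LInj 𝔸 𝔹 s := by
  have hplf : ∀ r j, j ≤ 2 * L + 2 → Plf L r j := fun r j hj => h.plf L r j hL hj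
  have hpls : ∀ r j, j < 2 * L + 2 → Pls L r j := fun r j hj => h.pls L r j hL hj
  have hbeh : BehC 𝔸 𝔹 L Φ := h.beh V σ ρ 𝔸 𝔹 L Φ hplf hC
  obtain ⟨N, hN⟩ := hl V ρ 𝔹 hB
  have htam : TamC 𝔹 L Φ := h.tam V σ ρ 𝔸 𝔹 L Φ hplf hbeh (h.cyc V ρ 𝔹 hB N hN)
  have hjex : ∀ (r : Fin 3) (j : ℕ), j ≤ 2 * L + 2 → ∀ s ∈ Rlz 𝔹, ∃ J, IsJ 𝔹 Φ r j s J :=
    h.jex V σ ρ 𝔸 𝔹 L Φ hB hplf hbeh htam
  obtain ⟨θ, hθs, hθ⟩ := h.tha V σ ρ 𝔸 𝔹 L Φ
    (fun r j hj => h.th0 V ρ 𝔹 L Φ r j (hplf r j hj))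
    (fun r j hj θ hθ => h.thb V σ ρ 𝔸 𝔹 L Φ hbeh r j hj θ hθ)
    (fun r j hj θ θ' hθ hθ' hS => h.ths V σ ρ 𝔸 𝔹 L Φ hC hP r j (hplf r j hj.le)
      (hplf r (j + 1) hj) (hpls r j hj) θ θ' hθ hθ' hS)
  have hun : UnC 𝔸 𝔹 θ := h.unb V σ ρ 𝔸 𝔹 L Φ hbeh (fun t ht hnt => by
    obtain ⟨J, hJ⟩ := hjex 0 0 (by omega) t ht
    exact ⟨J, hJ, h.jne V σ ρ 𝔸 𝔹 L Φ hbeh 0 0 (by omega) t J hJ hnt⟩) θ (hθ 0 0 (by omega))
  have hnrm : NrmC 𝔸 𝔹 (θ s) s := h.nrm V σ ρ 𝔸 𝔹 hP θ hθs hun s hs hn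
  by_contra hLI
  -- one determining entry in each shape
  have h1 : ∀ (r : Fin 3) (j : ℕ), j ≤ 2 * L + 2 →
      ∃ e : Fin 6, IsJ 𝔹 Φ r j s {c | Ent r j e c} := by
    intro r j hj
    obtain ⟨J, hJ⟩ := hjex r j hj s hs
    obtain ⟨e, he⟩ := h.jne V σ ρ 𝔸 𝔹 L Φ hbeh r j hj s J hJ hn
    refine ⟨e, ?_⟩
    have h2 : J = {c | Ent r j e c} := by
      ext c
      constructor
      · intro hc
        by_contra hne
        exact hLI (h.two V σ ρ 𝔸 𝔹 L Φ hbeh r j hj θ (hθ r j hj) s hnrm J hJ e he c hc hne)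
      · intro hc
        exact (hJ.1 e c hc).1 he
    rw [← h2]
    exact hJ
  choose e he using h1
  -- the first shape
  have h0 : ∀ r : Fin 3, e r 0 (by omega) = e 0 0 (by omega) := by
    intro r
    have h3 := h.ex0 V ρ 𝔹 L Φ r s _ (he r 0 (by omega))
    have h4 := he 0 0 (by omega)
    have h5 : ({c | Ent r 0 (e r 0 (by omega)) c} : Set (Fin 6)) =
        {c | Ent 0 0 (e 0 0 (by omega)) c} := by
      obtain ⟨x, hx⟩ := hs
      -- both sets are the smallest set with the property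
      by_contra hne
      have h6 : ∀ (r' : Fin 3) (c c' : Fin 6), Ent r' 0 c c' ↔ c = c' := by
        intro r' c c'
        constructor
        · rintro (h7 | ⟨-, h7⟩)
          · exact h7
          · exact absurd (by
              show sh 0 (lr r' c) = 0
              unfold sh
              rcases lr r' c with ⟨v, hv⟩
              interval_cases v <;> rfl) h7
        · exact fun h7 => Or.inl h7
      obtain ⟨x', -, hx', hxF⟩ : ∃ x' : V, True ∧ ty 𝔹 x' = s ∧ x' ≠ x := by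
        obtain ⟨x'', h8, -, h9⟩ := hB.amg Unit ∅ (fun _ => x) (fun _ => x) {x}
          ⟨fun a ha => absurd ha (Set.notMem_empty _), fun l z hz =>
            absurd (hz ⟨0, hB.ar l⟩) (Set.notMem_empty _)⟩
        refine ⟨x'' (), trivial, ?_, fun h10 => ?_⟩
        · rw [← hx]
          have h11 := congrArg Prod.snd h8
          funext l
          have h12 := congrFun (congrFun h11 l) (fun _ => ())
          exact h12
        · obtain ⟨a, ha, -⟩ := h9 () (by rw [h10]; exact Finset.mem_singleton_self x)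
          exact absurd ha (Set.notMem_empty _)
      obtain ⟨rk, hrk⟩ : ∃ rk : Pl L × V → ℕ, RkI rk (Sum.elim
          (blk L 0 0 (fun c => x))
          (blk L 0 0 (fun c => if c = e r 0 (by omega) then x else x'))) := by
        have h13 : (Set.range (Sum.elim (blk L 0 0 (fun c => x))
          (blk L 0 0 (fun c => if c = e r 0 (by omega) then x else x')))).Finite :=
          Set.finite_range _
        obtain ⟨f, hf⟩ := Set.countable_iff_exists_injOn.1 h13.countable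
        exact ⟨f, fun i j hij => hf ⟨i, rfl⟩ ⟨j, rfl⟩ hij⟩
      have hb1 : BlS 𝔹 0 0 s (fun _ : Fin 6 => x) := ⟨fun c c' _ => rfl, fun _ => hx⟩
      have hb2 : BlS 𝔹 0 0 s (fun c : Fin 6 => if c = e r 0 (by omega) then x else x') := by
        refine ⟨fun c c' hcc => ?_, fun c => ?_⟩
        · rw [(h6 0 c c').1 hcc]
        · show ty 𝔹 (if c = e r 0 (by omega) then x else x') = s
          split_ifs
          · exact hx
          · exact hx'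
      have h14 := (h3.2 _ _ rk hb1 hb2 hrk).2 (by
        intro c hc
        have h15 := (h6 r _ c).1 hc
        show x = if c = e r 0 (by omega) then x else x'
        rw [if_pos h15.symm])
      have h16 := (h4.2 _ _ rk hb1 hb2 hrk).1 h14 (e 0 0 (by omega)) (Or.inl rfl)
      have h17 : e 0 0 (by omega) = e r 0 (by omega) := by
        by_contra hne2
        have h18 : x = if e 0 0 (by omega) = e r 0 (by omega) then x else x' := h16
        rw [if_neg hne2] at h18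
        exact hxF h18.symm
      apply hne
      ext c
      rw [Set.mem_setOf_eq, Set.mem_setOf_eq, h6, h6, h17]
    have h7 : e 0 0 (by omega) ∈ ({c | Ent 0 0 (e 0 0 (by omega)) c} : Set (Fin 6)) := Or.inl rfl
    rw [← h5] at h7
    rcases h7 with h7 | ⟨-, h7⟩
    · exact h7
    · exact absurd (by
        show sh 0 (lr r (e r 0 (by omega))) = 0
        unfold sh
        rcases lr r (e r 0 (by omega)) with ⟨v, hv⟩
        interval_cases v <;> rfl) h7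
  -- the last shape
  have hlast : ∀ r : Fin 3, ({c | Ent r (2 * L + 2) (e r (2 * L + 2) le_rfl) c} : Set (Fin 6)) =
      {c | lr r c = lr r (e r (2 * L + 2) le_rfl)} := by
    intro r
    ext c
    constructor
    · rintro (h8 | ⟨h8, -⟩)
      · rw [← h8]
        rfl
      · exact h8.symm
    · intro h8
      refine Or.inr ⟨Eq.symm h8, ?_⟩
      unfold sh
      rcases lr r (e r (2 * L + 2) le_rfl) with ⟨v, hv⟩
      interval_cases v
      · show (2 * L + 2 + 1) / 2 ≠ 0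
        omega
      · show (2 * L + 2) / 2 ≠ 0
        omega
  have hend : ∀ r : Fin 3, lr r (e r (2 * L + 2) le_rfl) = lr 0 (e 0 (2 * L + 2) le_rfl) := by
    intro r
    refine h.exe V σ ρ 𝔸 𝔹 L Φ hB hC r s hs _ _ ?_ ?_
    · rw [← hlast r]
      exact he r _ le_rfl
    · rw [← hlast 0]
      exact he 0 _ le_rfl
  obtain ⟨r, hr⟩ := h.pat (e 0 0 (by omega)) (lr 0 (e 0 (2 * L + 2) le_rfl))
  let ee : ℕ → Fin 6 := fun j => if hj : j ≤ 2 * L + 2 then e r j hj else 0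
  have hee : ∀ j (hj : j ≤ 2 * L + 2), ee j = e r j hj := fun j hj => dif_pos hj
  obtain ⟨j, hj, hdis⟩ := h.chn L r ee (by
    rw [hee 0 (by omega), hee (2 * L + 2) le_rfl, hend r, h0 r]
    exact hr)
  rw [hee j hj.le, hee (j + 1) hj] at hdis
  have hmix := h.mix V σ ρ 𝔸 𝔹 L Φ hB hC r j (hplf r j hj.le) (hplf r (j + 1) hj) (hpls r j hj)
    s _ _ (he r j hj.le) (he r (j + 1) hj) hdis
  have hjmp := h.jmp V σ ρ 𝔸 𝔹 L Φ hC r j (hplf r j hj.le) (hplf r (j + 1) hj) (hpls r j hj)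
    θ (hθ r j hj.le) (hθ r (j + 1) hj) s _ _ (he r j hj.le) (he r (j + 1) hj) hdis hmix
  exact hLI (h.dsc V σ ρ 𝔸 𝔹 s (h.nrj V σ ρ 𝔸 𝔹 s (θ s) hjmp hnrm))

/-- the kernel theorem -/
theorem ker (h1 : P1) (h2 : P2) (hB : HB 𝔹) (hc : Countable V) (ht : Tyi 𝔸 𝔹) (hO : Oligo 𝔸)
    (hK : ¬ PPConstructsK3 𝔸) (hP : Prm 𝔸 𝔹) :
    ∀ s ∈ Rlz 𝔹, Clp 𝔸 𝔹 s ∨ LInj 𝔸 𝔹 s := by
  obtain ⟨L, Φ, hL, hC⟩ := h1.main hB hc ht hO hK
  intro s hs
  by_cases hn : Clp 𝔸 𝔹 s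
  · exact Or.inl hn
  · exact Or.inr (h2.main h1.lcs hB hL hC hP s hs hn)

end

end Pool.Agent.H44.KR
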