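import Pool.Agent.H57.LCI.Defs
import Pool.Agent.H53.GM.Targets
import Pool.Agent.H57.AR.Defs

/-!
# Kernels of canonical maps for structures with local completions: definitions
-/

set_option autoImplicit false
set_option linter.unusedVariables false

namespace Pool.Agent.H44.KR

open Pool.Agent.H68.BP Pool.Agent.H58.SF Pool.Agent.H53.NR Pool.Agent.H53.GM
open Pool.Agent.H57.LCI (LocalCompletions Pre Realizes)
open Pool.Agent.H57.AR (tp ty)
open Pool.Agent.H57.EQ (Cx)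
open Function
open Classical

/-! ### The hypotheses -/

section basic

variable {V W Q X : Type} {ρ σ : Sig}

/-- the tuples `x` and `y` have the same type on `A` -/
def TpOn (𝔹 : Str ρ V) (A : Set W) (x y : W → V) : Prop :=
  (∀ a ∈ A, ∀ b ∈ A, x a = x b ↔ y a = y b) ∧
    ∀ (l : Fin ρ.m) (z : Fin (ρ.ar l) → W), (∀ i, z i ∈ A) →
      (𝔹 l (fun i => x (z i)) ↔ 𝔹 l (fun i => y (z i)))

/-- Homogeneity without algebraicity: if `y` has the type of `x` on `A`, then the rest of `x` has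
a copy over `y`, whose new elements are not in `F`. -/
def Amg (𝔹 : Str ρ V) : Prop :=
  ∀ (W : Type) [Finite W] (A : Set W) (x y : W → V) (F : Finset V), TpOn 𝔹 A x y →
    ∃ x' : W → V, tp 𝔹 x' = tp 𝔹 x ∧ (∀ a ∈ A, x' a = y a) ∧
      ∀ w, x' w ∈ F → ∃ a ∈ A, x' w = x' a

/-- the hypotheses on `𝔹` -/
structure HB (𝔹 : Str ρ V) : Prop where
  ne : Nonempty V
  ar : ∀ l, 1 ≤ ρ.ar l
  amg : Amg 𝔹
  lc : LocalCompletions 𝔹

/-- The relations of `𝔸` depend only on the types in `𝔹`. -/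
def Tyi (𝔸 : Str σ V) (𝔹 : Str ρ V) : Prop :=
  ∀ (l : Fin σ.m) (x y : Fin (σ.ar l) → V), 𝔸 l x → tp 𝔹 y = tp 𝔹 x → 𝔸 l y

/-- `f` realizes on `g` the structure given by the label `κ` and the parts `pt`; elements in
different parts are different. -/
def Rz (𝔹 : Str ρ V) (pt : W → Q) (κ : Str ρ Q) (g : Set W) (f : W → V) : Prop :=
  (∀ x ∈ g, ∀ y ∈ g, f x = f y → pt x = pt y) ∧
    ∀ (l : Fin ρ.m) (z : Fin (ρ.ar l) → W), (∀ i, z i ∈ g) →
      (𝔹 l (fun i => f (z i)) ↔ κ l (fun i => pt (z i)))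

/-- the set of the types of elements -/
def Rlz (𝔹 : Str ρ V) : Set (Fin ρ.m → Prop) := {s | ∃ x, ty 𝔹 x = s}

/-- `γ` is the action on the types of elements of unary maps which preserve `𝔸`. -/
def Sb (𝔸 : Str σ V) (𝔹 : Str ρ V) (γ : (Fin ρ.m → Prop) → (Fin ρ.m → Prop)) : Prop :=
  ∀ (W : Type) [Finite W] (G : W → V), ∃ ψ : W → V, Cx 𝔸 (fun _ : Unit => G) ψ ∧
    ∀ w, ty 𝔹 (ψ w) = γ (ty 𝔹 (G w))

/-- The elements of type `s` can be identified. -/
def Clp (𝔸 : Str σ V) (𝔹 : Str ρ V) (s : Fin ρ.m → Prop) : Prop :=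
  ∀ (W : Type) [Finite W] (G : W → V), ∃ ψ : W → V, Cx 𝔸 (fun _ : Unit => G) ψ ∧
    ∀ w w', ty 𝔹 (G w) = s → ty 𝔹 (G w') = s → ψ w = ψ w'

/-- all `G i w` have type `s` -/
def OfS (𝔹 : Str ρ V) {I : Type} (s : Fin ρ.m → Prop) (G : I → W → V) (w : W) : Prop :=
  ∀ i, ty 𝔹 (G i w) = s

/-- Local injections at `s`. -/
def LInj (𝔸 : Str σ V) (𝔹 : Str ρ V) (s : Fin ρ.m → Prop) : Prop :=
  ∀ (W : Type) [Finite W] (G : Fin 2 → W → V), ∃ ψ : W → V, Cx 𝔸 G ψ ∧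
    (∀ w, OfS 𝔹 s G w → ty 𝔹 (ψ w) = s) ∧
    ∀ w w', OfS 𝔹 s G w → OfS 𝔹 s G w' → ψ w = ψ w' → ∀ i, G i w = G i w'

/-- actions on the types are injective -/
def Prm (𝔸 : Str σ V) (𝔹 : Str ρ V) : Prop := ∀ γ, Sb 𝔸 𝔹 γ → Set.InjOn γ (Rlz 𝔹)

end basic

/-! ### Places -/

section places

/-- The places: `inl c` is the place `c` of the region `0`, `inr (inl (t, r, d))` is the place of
the letter `d` at the level `t + 1` of the branch `r`, and `inr (inr d)` is the place of the letter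
`d` in the region `S`. -/
abbrev Pl (L : ℕ) : Type := Fin 6 ⊕ ((Fin L × Fin 3 × Fin 2) ⊕ Fin 2)

/-- the region of a place -/
def reg {L : ℕ} : Pl L → Rg L
  | Sum.inl _ => none
  | Sum.inr (Sum.inl p) => some (some (p.1, p.2.1))
  | Sum.inr (Sum.inr _) => some none

/-- the letter of the position `c` in the pattern `r` -/
def lr (r : Fin 3) (c : Fin 6) : Fin 2 := pat r (0 : Fin 2) 1 c

/-- the sheets: `inl c` is the sheet `LOW c`, `inr d` is the sheet `HIGH d` -/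
abbrev Sh : Type := Fin 6 ⊕ Fin 2

/-- The place is in the sheet. -/
def inSh {L : ℕ} : Sh → Pl L → Prop
  | Sum.inl c, Sum.inl c' => c' = c
  | Sum.inl c, Sum.inr (Sum.inl p) => lr p.2.1 c = p.2.2
  | Sum.inl _, Sum.inr (Sum.inr _) => False
  | Sum.inr _, Sum.inl _ => False
  | Sum.inr d, Sum.inr (Sum.inl p) => p.2.2 = d
  | Sum.inr d, Sum.inr (Sum.inr d') => d' = d

/-- The place can be used at the position `c` in the branch `r`. -/
def At {L : ℕ} (r : Fin 3) (c : Fin 6) : Pl L → Prop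
  | Sum.inl c' => c' = c
  | Sum.inr (Sum.inl p) => p.2.1 = r ∧ lr r c = p.2.2
  | Sum.inr (Sum.inr d) => lr r c = d

/-- the stages of the two letters in the `j`-th shape -/
def sh (j : ℕ) : Fin 2 → ℕ := ![(j + 1) / 2, j / 2]

/-- the place of the position `c` in the `j`-th shape of the branch `r` -/
def plc (L : ℕ) (r : Fin 3) (j : ℕ) (c : Fin 6) : Pl L :=
  if sh j (lr r c) = 0 then Sum.inl c
  else if h : sh j (lr r c) - 1 < L then Sum.inr (Sum.inl (⟨sh j (lr r c) - 1, h⟩, r, lr r c))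
  else Sum.inr (Sum.inr (lr r c))

/-- The positions `c` and `c'` have the same entry in the `j`-th shape of the branch `r`. -/
def Ent (r : Fin 3) (j : ℕ) (c c' : Fin 6) : Prop :=
  c = c' ∨ (lr r c = lr r c' ∧ sh j (lr r c) ≠ 0)

/-- `x` is constant on the entries of the shape. -/
def Sat {A : Type} (r : Fin 3) (j : ℕ) (x : Fin 6 → A) : Prop := ∀ c c', Ent r j c c' → x c = x c'

/-- the block of the shape with the entries `x` -/
def blk {V : Type} (L : ℕ) (r : Fin 3) (j : ℕ) (x : Fin 6 → V) (c : Fin 6) : Pl L × V :=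
  (plc L r j c, x c)

end places

/-! ### The class of systems -/

section classes

variable {V Q X X' : Type} {ρ : Sig} {L : ℕ}

/-- The class of the graded systems: the labels are structures on the set of parts, all whose
tuples lie in a sheet, and which are realized in each sheet. -/
def kC (𝔹 : Str ρ V) (L : ℕ) (pl : Q → Pl L) : Cls Q (Str ρ Q) :=
  ⟨fun α κ l z => κ l z ∧ ∀ i, z i ∈ α,
    fun α κ => (∀ x ∈ α, ∀ y ∈ α, Adj (reg (pl x)) (reg (pl y))) ∧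
      (∀ l z, κ l z → (∀ i, z i ∈ α) ∧ ∃ Z, ∀ i, inSh Z (pl (z i))) ∧
      ∀ Z, ∃ f : Q → V, Rz 𝔹 id κ {x | x ∈ α ∧ inSh Z (pl x)} f⟩

/-- good systems: each sheet is realized -/
def kG (𝔹 : Str ρ V) (L : ℕ) (pl : Q → Pl L) (W : Type) (C : Sy Q (Str ρ Q) W) : Prop :=
  ∀ Z : Sh, ∃ f : W → V, ∀ g κ, C.gd g κ →
    Rz 𝔹 C.pt κ {x | x ∈ g ∧ inSh Z (pl (C.pt x))} f

/-- graded structures: places, guards and a structure -/
structure GS (ρ : Sig) (L : ℕ) (X : Type) where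
  pl : X → Pl L
  gd : Finset X → Prop
  st : Str ρ X

/-- the tuple `a` is in a guard -/
def GS.tup (C : GS ρ L X) {J : Type} (a : J → X) : Prop := ∃ g, C.gd g ∧ ∀ j, a j ∈ g

/-- good graded structures -/
structure Good (𝔹 : Str ρ V) (C : GS ρ L X) : Prop where
  dn : ∀ g g', C.gd g → g' ⊆ g → C.gd g'
  adj : ∀ g, C.gd g → ∀ x ∈ g, ∀ y ∈ g, Adj (reg (C.pl x)) (reg (C.pl y))
  rz : ∀ Z, ∃ f : X → V, ∀ g, C.gd g → Rz 𝔹 id C.st {x | x ∈ g ∧ inSh Z (C.pl x)} f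

/-- all elements are guards -/
def GS.Sg (C : GS ρ L X) : Prop := ∀ x, C.gd {x}

/-- the system of the copies of `C` with the indices given by the maps in `Ξ` -/
def cpy (C : GS ρ L X) (R : ℕ) (Ξ : Set (X → Fin R)) :
    Sy (Pl L × Fin R) (Str ρ (Pl L × Fin R)) (Ξ × X) :=
  ⟨fun x => (C.pl x.2, x.1.1 x.2), fun g κ => ∃ (ξ : Ξ) (g' : Finset X), C.gd g' ∧
    g = g'.image (fun x => (ξ, x)) ∧ κ = fun l q => ∃ z : Fin (ρ.ar l) → X, (∀ i, z i ∈ g') ∧
      (∃ Z, ∀ i, inSh Z (C.pl (z i))) ∧ C.st l z ∧ q = fun i => (C.pl (z i), ξ.1 (z i))⟩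

/-- maps which preserve places, guards and the structure in the sheets -/
structure GHm (C : GS ρ L X) (C' : GS ρ L X') (φ : X → X') : Prop where
  pl : ∀ x, C'.pl (φ x) = C.pl x
  gd : ∀ g, C.gd g → C'.gd (g.image φ)
  inj : ∀ g, C.gd g → ∀ x ∈ g, ∀ y ∈ g, φ x = φ y → x = y
  st : ∀ g, C.gd g → ∀ (l : Fin ρ.m) (z : Fin (ρ.ar l) → X), (∀ i, z i ∈ g) →
    (∃ Z, ∀ i, inSh Z (C.pl (z i))) → (C'.st l (fun i => φ (z i)) ↔ C.st l z)

/-- the unfolding: `u c x` is the copy of `x` at the position `c` -/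
structure Unf (𝔹 : Str ρ V) (C : GS ρ L X) (u : Fin 6 → X → V) : Prop where
  top : ∀ x c c', reg (C.pl x) = some none → u c x = u c' x
  rz : ∀ g, C.gd g → ∀ r c, Rz 𝔹 id C.st {x | x ∈ g ∧ At r c (C.pl x)} (u c)

end classes

/-! ### Kinds and values -/

section kinds

variable {V X W : Type} {ρ σ : Sig} {L : ℕ}

/-- the positions of a pair of blocks -/
abbrev JJ : Type := Fin 6 ⊕ Fin 6

/-- kinds of tuples: places, equalities, the order in each place, and the structure in the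
sheets -/
abbrev Kd (ρ : Sig) (L : ℕ) (J : Type) : Type :=
  (J → Pl L) × (J → J → Prop) × (J → J → Prop) × Str ρ J

/-- the kind of the tuple `a` -/
def kd (pl : X → Pl L) (st : Str ρ X) (rk : X → ℕ) {J : Type} (a : J → X) : Kd ρ L J :=
  (fun j => pl (a j), fun i j => a i = a j,
    fun i j => pl (a i) = pl (a j) ∧ rk (a i) < rk (a j),
    fun l z => (∃ Z, ∀ i, inSh Z (pl (a (z i)))) ∧ st l (fun i => a (z i)))

/-- the colours of pairs of values: equality and types -/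
abbrev Yc (ρ : Sig) : Type := Prop × (Fin ρ.m → Prop) × (Fin ρ.m → Prop)

/-- the colour of a pair -/
def col2 (𝔹 : Str ρ V) (x y : V) : Yc ρ := (x = y, ty 𝔹 x, ty 𝔹 y)

/-- the kind of the tuple `a` of elements of `V` at places -/
def kv (𝔹 : Str ρ V) (rk : Pl L × V → ℕ) {J : Type} (a : J → Pl L × V) : Kd ρ L J :=
  kd Prod.fst (fun l z => 𝔹 l (fun i => (z i).2)) rk a

/-- `Φ` gives the values for `C`. -/
structure Vals (𝔸 : Str σ V) (𝔹 : Str ρ V) (n : ℕ) (C : GS ρ L X) (rk : X → ℕ)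
    (Φ : Kd ρ L JJ → Yc ρ) : Prop where
  out : ∃ u : Fin 6 → X → V, Unf 𝔹 C u ∧ ∀ (W : Type) [Finite W] (b : W → Fin 6 → X),
    Nat.card W ≤ n → ∃ ψ : W → V, Cx 𝔸 (fun c w => u c (b w c)) ψ ∧
      ∀ w w', C.tup (Sum.elim (b w) (b w')) →
        col2 𝔹 (ψ w) (ψ w') = Φ (kd C.pl C.st rk (Sum.elim (b w) (b w')))
  ex : ∀ (r : Fin 3) (x : Fin 2 → Fin 2 → X), (∃ g, C.gd g ∧ ∀ i d, x i d ∈ g) →
    (∀ i d, C.pl (x i d) = Sum.inr (Sum.inr d)) →
    Φ (kd C.pl C.st rk (Sum.elim (fun c => x 0 (lr r c)) (fun c => x 1 (lr r c)))) =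
      Φ (kd C.pl C.st rk (Sum.elim (fun c => x 0 (lr 0 c)) (fun c => x 1 (lr 0 c))))

/-- `rk` is injective on the tuple `a` -/
def RkI (rk : X → ℕ) {J : Type} (a : J → X) : Prop := ∀ i j, rk (a i) = rk (a j) → a i = a j

/-- The family `b` of blocks of the branch `r` is a configuration. -/
structure Cfg (r : Fin 3) (b : W → Fin 6 → Pl L × V) (rk : Pl L × V → ℕ) : Prop where
  pos : ∀ w c, At r c (b w c).1
  adj : ∀ w w' c, Adj (reg (b w c).1) (reg (b w' c).1)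
  inj : ∀ Z w w' c c', inSh Z (b w c).1 → inSh Z (b w' c').1 → (b w c).2 = (b w' c').2 →
    (b w c).1 = (b w' c').1
  rk : RkI rk (fun q : W × Fin 6 => b q.1 q.2)

/-- all regions of the tuple `a` are adjacent -/
def AdT {J : Type} (a : J → Pl L × V) : Prop := ∀ i j, Adj (reg (a i).1) (reg (a j).1)

/-- `Φ` gives the values of a canonical map. -/
structure Can (𝔸 : Str σ V) (𝔹 : Str ρ V) (L : ℕ) (Φ : Kd ρ L JJ → Yc ρ) : Prop where
  out : ∀ (r : Fin 3) (W : Type) [Finite W] (b : W → Fin 6 → Pl L × V) (rk : Pl L × V → ℕ),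
    Cfg r b rk → ∃ ψ : W → V, Cx 𝔸 (fun c w => (b w c).2) ψ ∧
      ∀ w w', AdT (Sum.elim (b w) (b w')) →
        col2 𝔹 (ψ w) (ψ w') = Φ (kv 𝔹 rk (Sum.elim (b w) (b w')))
  ex : ∀ (r : Fin 3) (x : Fin 2 → Fin 2 → V) (rk : Pl L × V → ℕ),
    RkI rk (fun q : Fin 2 × Fin 2 => ((Sum.inr (Sum.inr q.2) : Pl L), x q.1 q.2)) →
    Φ (kv 𝔹 rk (Sum.elim (fun c => (Sum.inr (Sum.inr (lr r c)), x 0 (lr r c)))
      (fun c => (Sum.inr (Sum.inr (lr r c)), x 1 (lr r c))))) =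
    Φ (kv 𝔹 rk (Sum.elim (fun c => (Sum.inr (Sum.inr (lr 0 c)), x 0 (lr 0 c)))
      (fun c => (Sum.inr (Sum.inr (lr 0 c)), x 1 (lr 0 c)))))

/-- the value of `Φ` at two blocks -/
def Fv (𝔹 : Str ρ V) (Φ : Kd ρ L JJ → Yc ρ) (rk : Pl L × V → ℕ) (b b' : Fin 6 → Pl L × V) :
    Yc ρ :=
  Φ (kv 𝔹 rk (Sum.elim b b'))

/-- `x` is a block of elements of type `s` for the shape. -/
def BlS (𝔹 : Str ρ V) (r : Fin 3) (j : ℕ) (s : Fin ρ.m → Prop) (x : Fin 6 → V) : Prop :=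
  Sat r j x ∧ ∀ c, ty 𝔹 (x c) = s

/-- `J` is the set of the determining positions of the shape for the type `s`. -/
def IsJ (𝔹 : Str ρ V) (Φ : Kd ρ L JJ → Yc ρ) (r : Fin 3) (j : ℕ) (s : Fin ρ.m → Prop)
    (J : Set (Fin 6)) : Prop :=
  (∀ c c', Ent r j c c' → (c ∈ J ↔ c' ∈ J)) ∧
    ∀ (x y : Fin 6 → V) (rk : Pl L × V → ℕ), BlS 𝔹 r j s x → BlS 𝔹 r j s y →
      RkI rk (Sum.elim (blk L r j x) (blk L r j y)) →
      ((Fv 𝔹 Φ rk (blk L r j x) (blk L r j y)).1 ↔ ∀ c ∈ J, x c = y c)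

/-- The values at blocks of the shape whose entries have type `s` have the type `θ s`. -/
def IsTh (𝔹 : Str ρ V) (Φ : Kd ρ L JJ → Yc ρ) (r : Fin 3) (j : ℕ)
    (θ : (Fin ρ.m → Prop) → (Fin ρ.m → Prop)) : Prop :=
  ∀ (s : Fin ρ.m → Prop) (x : Fin 6 → V) (rk : Pl L × V → ℕ), BlS 𝔹 r j s x →
    RkI rk (blk L r j x) → (Fv 𝔹 Φ rk (blk L r j x) (blk L r j x)).2.1 = θ s

end kinds

end Pool.Agent.H44.KR
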